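import Pool.Agent.Lib.MP_7682a8_an.KB.Iface

/-!
Module GRO: growth of the branch.
-/

set_option autoImplicit false

open Metric Set MeasureTheory Filter
open scoped Topology

namespace Pool.Agent.Lib.MP_7682a8_an.KB.H30

/-- the pointwise bound of the derivative -/
theorem bnd {d c H G F : ℝ} (hd : 0 < d) (hc0 : 0 ≤ c) (hc1 : c < 1) (hH : 0 < H)
    (hG : G ≤ c * H) (hF : d * ((1 - c) * (1 - c ^ 2)) * H ≤ F) :
    (H + G) / (2 * F) ≤ 1 / (2 * d * (1 - c) ^ 2) := by
  have h1 : 0 < 1 - c := by linarith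
  have h2 : 0 < 1 - c ^ 2 := by nlinarith
  have hFp : 0 < F := lt_of_lt_of_le (by positivity) hF
  rw [div_le_div_iff₀ (by positivity) (by positivity)]
  have h3 : H + G ≤ (1 + c) * H := by linarith
  have h4 : (H + G) * (2 * d * (1 - c) ^ 2) ≤ (1 + c) * H * (2 * d * (1 - c) ^ 2) :=
    mul_le_mul_of_nonneg_right h3 (by positivity)
  have h5 : (1 + c) * H * (2 * d * (1 - c) ^ 2) = 2 * (d * ((1 - c) * (1 - c ^ 2)) * H) := by ring
  linarith

/-- GRO -/
theorem gro (hDer : DerStmt) : GroStmt := by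
  intro h g δ ξ d hOm hBr hSw hd hgr z hz
  have hz1 : ‖z‖ < 1 := by simpa using hz
  set t : ℝ := ‖z‖ with ht
  have ht0 : 0 ≤ t := norm_nonneg z
  -- points on the segment
  have hseg : ∀ s ∈ Icc (0 : ℝ) 1, ((s : ℂ) * z) ∈ ball (0 : ℂ) 1 := by
    intro s hs
    rw [mem_ball_zero_iff, norm_mul, Complex.norm_real, Real.norm_eq_abs, abs_of_nonneg hs.1]
    exact lt_of_le_of_lt (mul_le_of_le_one_left ht0 hs.2) hz1
  have hnorm : ∀ s ∈ Icc (0 : ℝ) 1, ‖(s : ℂ) * z‖ = s * t := by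
    intro s hs
    rw [norm_mul, Complex.norm_real, Real.norm_eq_abs, abs_of_nonneg hs.1]
  let D : ℝ → ℂ := fun s => (wd (deriv h ((s : ℂ) * z) / (2 * (ff h g ((s : ℂ) * z) + δ)))
    (starRingEnd ℂ (deriv g ((s : ℂ) * z)) / (2 * (ff h g ((s : ℂ) * z) + δ)))) z
  have hder : ∀ s ∈ Icc (0 : ℝ) 1, HasDerivAt (fun s : ℝ => ξ ((s : ℂ) * z)) (D s) s := by
    intro s hs
    have h1 := hDer h g δ ξ hOm hBr _ (hseg s hs)
    have h2 : HasDerivAt (fun s : ℝ => (s : ℂ) * z) z s := by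
      have := (Complex.ofRealCLM.hasDerivAt (x := s)).mul_const z
      simpa using this
    exact h1.comp_hasDerivAt s h2
  have hlt : ∀ s ∈ Icc (0 : ℝ) 1, 0 < 1 - s * t := by
    intro s hs
    have : s * t < 1 := lt_of_le_of_lt (mul_le_of_le_one_left ht0 hs.2) hz1
    linarith
  have hbd : ∀ s ∈ Icc (0 : ℝ) 1, ‖D s‖ ≤ t / (2 * d * (1 - s * t) ^ 2) := by
    intro s hs
    have hc := hseg s hs
    have hn := hnorm s hs
    have hgr' := hgr _ hc
    have hsw := hSw _ hc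
    have hltc := hOm.lt _ hc
    rw [hn] at hgr' hsw
    have hHp : 0 < ‖deriv h ((s : ℂ) * z)‖ := lt_of_le_of_lt (norm_nonneg _) hltc
    have hb := bnd hd (mul_nonneg hs.1 ht0) (by linarith [hlt s hs]) hHp hsw hgr'
    have h3 : ‖D s‖ ≤ (‖deriv h ((s : ℂ) * z)‖ + ‖deriv g ((s : ℂ) * z)‖) /
        (2 * ‖ff h g ((s : ℂ) * z) + δ‖) * t := by
      have h4 : D s = deriv h ((s : ℂ) * z) / (2 * (ff h g ((s : ℂ) * z) + δ)) * z +
          starRingEnd ℂ (deriv g ((s : ℂ) * z)) / (2 * (ff h g ((s : ℂ) * z) + δ)) *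
            starRingEnd ℂ z := by
        simp [D, wd]
      rw [h4]
      refine (norm_add_le _ _).trans (le_of_eq ?_)
      simp only [norm_mul, norm_div, RCLike.norm_conj, Complex.norm_ofNat]
      rw [← ht]
      ring
    refine h3.trans ?_
    calc _ ≤ 1 / (2 * d * (1 - s * t) ^ 2) * t := mul_le_mul_of_nonneg_right hb ht0
      _ = t / (2 * d * (1 - s * t) ^ 2) := by ring
  have hBder : ∀ s ∈ Icc (0 : ℝ) 1, HasDerivAt (fun s : ℝ => s * t / (2 * d * (1 - s * t)))
      (t / (2 * d * (1 - s * t) ^ 2)) s := by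
    intro s hs
    have hp := hlt s hs
    have h1 : HasDerivAt (fun s : ℝ => s * t) t s := by
      simpa using (hasDerivAt_id s).mul_const t
    have h2 : HasDerivAt (fun s : ℝ => 2 * d * (1 - s * t)) (2 * d * (-t)) s :=
      ((h1.const_sub 1)).const_mul (2 * d)
    have h3 := h1.div h2 (by positivity)
    have h4 : (t * (2 * d * (1 - s * t)) - s * t * (2 * d * (-t))) / (2 * d * (1 - s * t)) ^ 2 =
        t / (2 * d * (1 - s * t) ^ 2) := by
      rw [div_eq_div_iff (by positivity) (by positivity)]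
      ring
    rw [← h4]
    exact h3
  have key := image_norm_le_of_norm_deriv_right_le_deriv_boundary'
    (f := fun s : ℝ => ξ ((s : ℂ) * z)) (f' := D) (a := 0) (b := 1)
    (fun s hs => (hder s hs).continuousAt.continuousWithinAt)
    (fun s hs => (hder s ⟨hs.1, hs.2.le⟩).hasDerivWithinAt)
    (B := fun s : ℝ => s * t / (2 * d * (1 - s * t)))
    (B' := fun s : ℝ => t / (2 * d * (1 - s * t) ^ 2))
    (by simp [hBr.zero])
    (fun s hs => (hBder s hs).continuousAt.continuousWithinAt)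
    (fun s hs => (hBder s ⟨hs.1, hs.2.le⟩).hasDerivWithinAt)
    (fun s hs => hbd s ⟨hs.1, hs.2.le⟩)
    (right_mem_Icc.2 zero_le_one)
  simpa using key

end Pool.Agent.Lib.MP_7682a8_an.KB.H30
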